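import Pool.Agent.H94.Stab.Calc2

/-!
# M1: the Sternberg–Zumbrun inequality (MP_de3e90_an)
-/

set_option autoImplicit false

open MeasureTheory Set Filter Topology
open scoped ContDiff

namespace Pool.Agent.H94.Stab

variable {n : ℕ} {Ω : Set (E n)} {f F : ℝ → ℝ} {u : E n → ℝ}

/-! ### linear algebra -/

theorem M1_lin (h : Fin n → Fin n → ℝ) (hs : ∀ i j, h i j = h j i) (ν : Fin n → ℝ)
    (hν : ∑ i, ν i ^ 2 = 1) (c : ℝ) (htr : ∑ i, h i i = -c) :
    ∑ i, ∑ j, (h i j + c * ν i * ν j) ^ 2 ≤
      (n + 2) * (∑ i, ∑ j, h i j ^ 2 - ∑ i, (∑ j, h i j * ν j) ^ 2) := by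
  set p : Fin n → ℝ := fun i => ∑ j, h i j * ν j with hp
  set s : ℝ := ∑ i, p i * ν i with hsdef
  set A : ℝ := ∑ i, ∑ j, h i j ^ 2 - ∑ i, p i ^ 2 with hA
  have hs2 : ∑ i, ∑ j, h i j * ν i * ν j = s := by
    rw [hsdef]
    refine Finset.sum_congr rfl fun i _ => ?_
    rw [hp, Finset.sum_mul]
    refine Finset.sum_congr rfl fun j _ => ?_
    ring
  have hνν : ∑ i, ∑ j, ν i ^ 2 * ν j ^ 2 = 1 := by
    simp_rw [← Finset.mul_sum, hν, mul_one]
    exact hν
  -- |W|^2
  have e1 : ∑ i, ∑ j, (h i j + c * ν i * ν j) ^ 2 = ∑ i, ∑ j, h i j ^ 2 + 2 * c * s + c ^ 2 := by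
    have : ∀ i j, (h i j + c * ν i * ν j) ^ 2 =
        h i j ^ 2 + 2 * c * (h i j * ν i * ν j) + c ^ 2 * (ν i ^ 2 * ν j ^ 2) := by
      intro i j; ring
    simp_rw [this, Finset.sum_add_distrib, ← Finset.mul_sum]
    simp_rw [← Finset.mul_sum] at hνν
    rw [hs2, hνν]
    ring
  -- |B|^2 = A
  have e2 : ∑ i, ∑ j, (h i j - p i * ν j) ^ 2 = A := by
    have : ∀ i j, (h i j - p i * ν j) ^ 2 =
        h i j ^ 2 - 2 * p i * (h i j * ν j) + p i ^ 2 * ν j ^ 2 := by
      intro i j; ring
    have e3 : ∀ i, ∑ j, (h i j - p i * ν j) ^ 2 = ∑ j, h i j ^ 2 - p i ^ 2 := by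
      intro i
      simp_rw [this, Finset.sum_add_distrib, Finset.sum_sub_distrib, ← Finset.mul_sum, hν]
      have : ∑ j, h i j * ν j = p i := rfl
      rw [this]; ring
    simp_rw [e3, Finset.sum_sub_distrib]
    rfl
  -- trace
  have e4 : (c + s) ^ 2 ≤ n * A := by
    have h1 : c + s = - ∑ i, (h i i - p i * ν i) := by
      rw [Finset.sum_sub_distrib, htr]; ring
    rw [h1, neg_sq]
    have h2 : (∑ i, (h i i - p i * ν i)) ^ 2 ≤ n * ∑ i, (h i i - p i * ν i) ^ 2 := by
      have := sq_sum_le_card_mul_sum_sq (s := (Finset.univ : Finset (Fin n)))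
        (f := fun i => h i i - p i * ν i)
      simpa using this
    refine h2.trans ?_
    apply mul_le_mul_of_nonneg_left _ (Nat.cast_nonneg n)
    rw [← e2]
    refine Finset.sum_le_sum fun i _ => ?_
    exact Finset.single_le_sum (f := fun j => (h i j - p i * ν j) ^ 2)
      (fun _ _ => sq_nonneg _) (Finset.mem_univ i)
  -- tangential part
  have e5 : ∑ i, p i ^ 2 - s ^ 2 ≤ A := by
    have h1 : ∀ j, p j - s * ν j = ∑ i, (h i j - p i * ν j) * ν i := by
      intro j
      simp_rw [sub_mul, Finset.sum_sub_distrib]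
      congr 1
      · rw [hp]; refine Finset.sum_congr rfl fun i _ => ?_
        rw [hs]
      · rw [hsdef, Finset.sum_mul]
        refine Finset.sum_congr rfl fun i _ => ?_
        ring
    have h2 : ∑ j, (p j - s * ν j) ^ 2 = ∑ i, p i ^ 2 - s ^ 2 := by
      have : ∀ j, (p j - s * ν j) ^ 2 = p j ^ 2 - 2 * s * (p j * ν j) + s ^ 2 * ν j ^ 2 := by
        intro j; ring
      simp_rw [this, Finset.sum_add_distrib, Finset.sum_sub_distrib, ← Finset.mul_sum, hν]
      rw [← hsdef]; ring
    rw [← h2, ← e2, Finset.sum_comm]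
    refine Finset.sum_le_sum fun j _ => ?_
    rw [h1]
    refine (Finset.sum_mul_sq_le_sq_mul_sq _ _ _).trans ?_
    rw [hν, mul_one]
  rw [e1]
  have e6 : ∑ i, ∑ j, h i j ^ 2 = A + ∑ i, p i ^ 2 := by rw [hA]; ring
  rw [e6]
  nlinarith [e4, e5]

/-! ### regularised gradient -/

/-- `|∇u|² + ε²` -/
noncomputable def qe (u : E n → ℝ) (ε : ℝ) (x : E n) : ℝ := gsq u x + ε ^ 2

theorem qe_pos (u : E n → ℝ) {ε : ℝ} (hε : 0 < ε) (x : E n) : 0 < qe u ε x := by
  have := gsq_nonneg u x
  unfold qe; positivity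

theorem contDiff_qe (hu : ContDiff ℝ ∞ u) (ε : ℝ) : ContDiff ℝ ∞ (qe u ε) :=
  (contDiff_gsq hu).add contDiff_const

theorem pd_gsq (hu : ContDiff ℝ ∞ u) (k : Fin n) (x : E n) :
    pd k (gsq u) x = 2 * ∑ i, pd i u x * pd k (pd i u) x := by
  have hd : ∀ i, DifferentiableAt ℝ (pd i u) x := fun i =>
    (contDiff_pd_infty i hu).differentiable (by simp) x
  unfold gsq
  rw [pd_sum k (g := fun i x => pd i u x ^ 2) (fun i _ => (hd i).pow 2), Finset.mul_sum]
  refine Finset.sum_congr rfl fun i _ => ?_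
  rw [pd_sq k (hd i)]; ring

theorem pd_qe (hu : ContDiff ℝ ∞ u) (ε : ℝ) (k : Fin n) (x : E n) :
    pd k (qe u ε) x = 2 * ∑ i, pd i u x * pd k (pd i u) x := by
  unfold qe
  rw [pd_add k ((contDiff_gsq hu).differentiable (by simp) x) (differentiableAt_const _), pd_const,
    add_zero, pd_gsq hu]

/-- `½ Δ|∇u|² = |D²u|² + ∇u·∇Δu`. -/
theorem lap_qe (hu : ContDiff ℝ ∞ u) (ε : ℝ) (x : E n) :
    ∑ k, pd k (pd k (qe u ε)) x = 2 * (∑ k, ∑ i, (pd k (pd i u) x) ^ 2 +
      ∑ i, pd i u x * ∑ k, pd k (pd k (pd i u)) x) := by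
  have hd : ∀ i, ContDiff ℝ ∞ (pd i u) := fun i => contDiff_pd_infty i hu
  have hd2 : ∀ k i, ContDiff ℝ ∞ (pd k (pd i u)) := fun k i => contDiff_pd_infty k (hd i)
  have e1 : ∀ k, pd k (qe u ε) = fun y => 2 * ∑ i, pd i u y * pd k (pd i u) y := fun k =>
    funext fun y => pd_qe hu ε k y
  have e2 : ∀ k, pd k (pd k (qe u ε)) x =
      2 * (∑ i, (pd k (pd i u) x) ^ 2 + ∑ i, pd i u x * pd k (pd k (pd i u)) x) := by
    intro k
    rw [e1 k, pd_const_mul k 2, pd_sum k, ← Finset.sum_add_distrib]
    · congr 1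
      refine Finset.sum_congr rfl fun i _ => ?_
      rw [pd_mul k ((hd i).differentiable (by simp) x) ((hd2 k i).differentiable (by simp) x)]
      ring
    · intro i _
      exact ((hd i).mul (hd2 k i)).differentiable (by simp) x
    · exact (ContDiff.sum fun i _ => (hd i).mul (hd2 k i)).differentiable (by simp) x
  simp_rw [e2, ← Finset.mul_sum, Finset.sum_add_distrib]
  congr 2
  rw [Finset.sum_comm]
  refine Finset.sum_congr rfl fun i _ => ?_
  rw [Finset.mul_sum]

/-- the square root of `qe` is smooth -/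
theorem contDiff_sqrt_qe (hu : ContDiff ℝ ∞ u) {ε : ℝ} (hε : 0 < ε) :
    ContDiff ℝ ∞ (fun x => Real.sqrt (qe u ε x)) :=
  (contDiff_qe hu ε).sqrt fun x => (qe_pos u hε x).ne'

/-- gradient square of `√q η`. -/
theorem gsq_sqrt_mul (hu : ContDiff ℝ ∞ u) {ε : ℝ} (hε : 0 < ε) {η : E n → ℝ}
    (hη : ContDiff ℝ ∞ η) (x : E n) :
    gsq (fun y => Real.sqrt (qe u ε y) * η y) x =
      qe u ε x * gsq η x + 1 / 2 * ∑ k, pd k (qe u ε) x * pd k (fun y => η y ^ 2) x +
        η x ^ 2 * ((∑ k, (∑ i, pd i u x * pd k (pd i u) x) ^ 2) / qe u ε x) := by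
  have hq := qe_pos u hε x
  have hsd : DifferentiableAt ℝ (fun y => Real.sqrt (qe u ε y)) x :=
    (contDiff_sqrt_qe hu hε).differentiable (by simp) x
  have hηd : DifferentiableAt ℝ η x := hη.differentiable (by simp) x
  have hqd : DifferentiableAt ℝ (qe u ε) x := (contDiff_qe hu ε).differentiable (by simp) x
  have hs0 : Real.sqrt (qe u ε x) ≠ 0 := (Real.sqrt_pos.mpr hq).ne'
  have hss : Real.sqrt (qe u ε x) ^ 2 = qe u ε x := Real.sq_sqrt hq.le
  unfold gsq
  rw [Finset.mul_sum, Finset.mul_sum, Finset.sum_div, Finset.mul_sum, ← Finset.sum_add_distrib,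
    ← Finset.sum_add_distrib]
  refine Finset.sum_congr rfl fun k _ => ?_
  rw [pd_mul k hsd hηd, pd_sqrt k hqd hq.ne', pd_sq k hηd]
  have hP : (∑ i, pd i u x * pd k (pd i u) x) = pd k (qe u ε) x / 2 := by
    rw [pd_qe hu]; ring
  rw [hP]
  generalize pd k (qe u ε) x = P
  generalize pd k η x = e
  generalize η x = h
  rw [add_sq]
  have h1 : (P / (2 * Real.sqrt (qe u ε x)) * h) ^ 2 = h ^ 2 * ((P / 2) ^ 2 / qe u ε x) := by
    rw [mul_pow, div_pow, mul_pow, hss]
    field_simp
  have h2 : 2 * (P / (2 * Real.sqrt (qe u ε x)) * h) * (Real.sqrt (qe u ε x) * e) =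
      1 / 2 * (P * (2 * h * e)) := by
    field_simp
  have h3 : (Real.sqrt (qe u ε x) * e) ^ 2 = qe u ε x * e ^ 2 := by
    rw [mul_pow, hss]
  rw [h1, h2, h3]
  ring

theorem Test.sq {φ : E n → ℝ} (h : Test Ω φ) : Test Ω (fun x => φ x ^ 2) := by
  have := h.mul_left h.smooth
  simpa only [pow_two] using this

theorem Test.zero' : Test Ω (fun _ : E n => (0 : ℝ)) := by
  refine ⟨contDiff_const, HasCompactSupport.zero, ?_⟩
  have : tsupport (fun _ : E n => (0 : ℝ)) = ∅ := by
    rw [tsupport_eq_empty_iff]; rfl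
  rw [this]
  exact empty_subset _

theorem Test.sum' {ι : Type*} (s : Finset ι) {φ : ι → E n → ℝ} (h : ∀ i, Test Ω (φ i)) :
    Test Ω (fun x => ∑ i ∈ s, φ i x) := by
  classical
  induction s using Finset.induction_on with
  | empty => simpa using Test.zero'
  | insert a s ha ih =>
    simp_rw [Finset.sum_insert ha]
    exact (h a).add ih

theorem Test.gsq' {η : E n → ℝ} (hη : Test Ω η) : Test Ω (gsq η) :=
  Test.sum' Finset.univ fun i => (hη.pd i).sq

/-- integration by parts for `½ ∇q·∇(η²)` -/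
theorem integral_grad_qe (hu : ContDiff ℝ ∞ u) (ε : ℝ) {η : E n → ℝ} (hη : Test Ω η) :
    ∫ x, ∑ k, pd k (qe u ε) x * pd k (fun y => η y ^ 2) x =
      - ∫ x, (∑ k, pd k (pd k (qe u ε)) x) * η x ^ 2 := by
  have hq1 : ∀ k, ContDiff ℝ ∞ (pd k (qe u ε)) := fun k => contDiff_pd_infty k (contDiff_qe hu ε)
  have hη2 := hη.sq
  rw [integral_finsetSum, ← integral_neg]
  · have h1 : ∀ k, ∫ x, pd k (qe u ε) x * pd k (fun y => η y ^ 2) x =
        - ∫ x, pd k (pd k (qe u ε)) x * η x ^ 2 := fun k =>
      integral_mul_pd' k ((hq1 k).of_le (by exact_mod_cast le_top)) hη2.c1 hη2.compact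
    simp_rw [h1]
    rw [Finset.sum_neg_distrib, ← integral_finsetSum, ← integral_neg]
    · congr 1; ext x; rw [Finset.sum_mul]
    · intro k _
      exact hη2.integrable_mul (contDiff_pd_infty k (hq1 k)).continuous
  · intro k _
    exact (hη2.pd k).integrable_mul (hq1 k).continuous

/-! ## M1: Sternberg–Zumbrun -/
theorem sz (h : Stable Ω f F u) {η : E n → ℝ} (hη : Test Ω η) :
    ∫ x, Wsq f u x * η x ^ 2 ≤ (n + 2) * ∫ x, gsq u x * gsq η x := by
  have hu := h.smooth
  -- the regularised inequality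
  have key : ∀ ε : ℝ, 0 < ε → ∫ x, Wsq f u x * η x ^ 2 ≤
      (n + 2) * (∫ x, gsq u x * gsq η x) +
        ε ^ 2 * ((n + 2) * ∫ x, (gsq η x - deriv f (u x) * η x ^ 2)) := by
    intro ε hε
    set v : E n → ℝ := fun y => Real.sqrt (qe u ε y) with hv
    have hv1 : ContDiff ℝ ∞ v := contDiff_sqrt_qe hu hε
    have hstab := h.stab _ (hη.mul_left hv1)
    set Hs : E n → ℝ := fun x => ∑ k, ∑ i, (pd k (pd i u) x) ^ 2 with hHs
    set P : E n → ℝ := fun x => ∑ k, (∑ i, pd i u x * pd k (pd i u) x) ^ 2 with hP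
    have hpc : ∀ i, Continuous (pd i u) := fun i => (h.pd_smooth i).continuous
    have hppc : ∀ k i, Continuous (pd k (pd i u)) := fun k i =>
      (contDiff_pd_infty k (h.pd_smooth i)).continuous
    have hHsc : Continuous Hs := continuous_finsetSum _ fun k _ =>
      continuous_finsetSum _ fun i _ => (hppc k i).pow 2
    have hPc : Continuous P := continuous_finsetSum _ fun k _ =>
      (continuous_finsetSum _ fun i _ => (hpc i).mul (hppc k i)).pow 2
    have hqc : Continuous (qe u ε) := (contDiff_qe hu ε).continuous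
    have hPqc : Continuous (fun x => P x / qe u ε x) := hPc.div hqc fun x => (qe_pos u hε x).ne'
    have hgη : Test Ω (gsq η) := hη.gsq'
    have hη2 := hη.sq
    have hf' : Continuous fun x => deriv f (u x) := h.deriv_f_cont.comp h.continuous
    -- rewrite Q
    have hQ : Qf f u (fun x => v x * η x) =
        (∫ x, ((qe u ε x * gsq η x - deriv f (u x) * qe u ε x * η x ^ 2) +
          (P x / qe u ε x) * η x ^ 2)) -
        (1 / 2) * ∫ x, (∑ k, pd k (pd k (qe u ε)) x) * η x ^ 2 := by
      unfold Qf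
      have e1 : ∀ x, gsq (fun y => v y * η y) x - deriv f (u x) * (v x * η x) ^ 2 =
          ((qe u ε x * gsq η x - deriv f (u x) * qe u ε x * η x ^ 2) +
          (P x / qe u ε x) * η x ^ 2) +
          1 / 2 * ∑ k, pd k (qe u ε) x * pd k (fun y => η y ^ 2) x := by
        intro x
        rw [gsq_sqrt_mul hu hε hη.smooth x]
        have : (v x * η x) ^ 2 = qe u ε x * η x ^ 2 := by
          rw [mul_pow, hv]
          simp only
          rw [Real.sq_sqrt (qe_pos u hε x).le]
        rw [this]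
        ring
      simp_rw [e1]
      rw [integral_add, integral_const_mul, integral_grad_qe hu ε hη]
      · ring
      · refine ((hgη.integrable_mul hqc).sub ?_).add ?_
        · exact hη2.integrable_mul (hf'.mul hqc)
        · exact hη2.integrable_mul hPqc
      · refine Integrable.const_mul ?_ _
        refine integrable_finsetSum _ fun k _ => ?_
        exact (hη2.pd k).integrable_mul (contDiff_pd_infty k (contDiff_qe hu ε)).continuous
    have hlap : ∫ x, (∑ k, pd k (pd k (qe u ε)) x) * η x ^ 2 =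
        ∫ x, 2 * ((Hs x - deriv f (u x) * gsq u x) * η x ^ 2) := by
      congr 1
      ext x
      by_cases hx : x ∈ Ω
      · rw [lap_qe hu]
        have : ∑ i, pd i u x * ∑ k, pd k (pd k (pd i u)) x = - (deriv f (u x) * gsq u x) := by
          simp_rw [fun i => h.eqn_pd hx i]
          unfold gsq
          rw [Finset.mul_sum, ← Finset.sum_neg_distrib]
          refine Finset.sum_congr rfl fun i _ => ?_
          ring
        rw [this]
        ring
      · rw [hη.zero_of_notMem hx]; ring
    rw [hQ, hlap, integral_const_mul] at hstab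
    have hI1 : Integrable (fun x => Hs x * η x ^ 2) := hη2.integrable_mul hHsc
    have hI2 : Integrable (fun x => (P x / qe u ε x) * η x ^ 2) := hη2.integrable_mul hPqc
    have hI3 : Integrable (fun x => gsq u x * gsq η x) :=
      hgη.integrable_mul (contDiff_gsq hu).continuous
    have hI4 : Integrable (fun x => gsq η x - deriv f (u x) * η x ^ 2) :=
      hgη.integrable.sub (hη2.integrable_mul hf')
    have hcomb : ∫ x, (Hs x - P x / qe u ε x) * η x ^ 2 ≤
        (∫ x, gsq u x * gsq η x) + ε ^ 2 * ∫ x, (gsq η x - deriv f (u x) * η x ^ 2) := by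
      have e2 : (∫ x, gsq u x * gsq η x) + ε ^ 2 * (∫ x, (gsq η x - deriv f (u x) * η x ^ 2)) -
          ∫ x, (Hs x - P x / qe u ε x) * η x ^ 2 =
          (∫ x, ((qe u ε x * gsq η x - deriv f (u x) * qe u ε x * η x ^ 2) +
          (P x / qe u ε x) * η x ^ 2)) -
        1 / 2 * (2 * ∫ x, (Hs x - deriv f (u x) * gsq u x) * η x ^ 2) := by
        rw [← integral_const_mul, ← integral_add hI3 (hI4.const_mul _), ← integral_sub,
          ← mul_assoc, show (1 : ℝ) / 2 * 2 = 1 by norm_num, one_mul, ← integral_sub]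
        · congr 1
          ext x
          unfold qe
          ring
        · refine ((hgη.integrable_mul hqc).sub ?_).add ?_
          · exact hη2.integrable_mul (hf'.mul hqc)
          · exact hη2.integrable_mul hPqc
        · exact hη2.integrable_mul (hHsc.sub (hf'.mul (contDiff_gsq hu).continuous))
        · exact hI3.add (hI4.const_mul _)
        · simp_rw [sub_mul]
          exact hI1.sub hI2
      linarith
    have hpt : ∀ x, Wsq f u x * η x ^ 2 ≤ (n + 2) * ((Hs x - P x / qe u ε x) * η x ^ 2) := by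
      intro x
      by_cases hx : x ∈ Ω
      · rw [← mul_assoc]
        apply mul_le_mul_of_nonneg_right _ (sq_nonneg _)
        by_cases h0 : gr u x = 0
        · have hPx : P x = 0 := by
            rw [hP]
            apply Finset.sum_eq_zero
            intro k _
            have : ∑ i, pd i u x * pd k (pd i u) x = 0 :=
              Finset.sum_eq_zero fun i _ => by rw [(gr_eq_zero_iff u x).1 h0 i, zero_mul]
            rw [this]; norm_num
          have hW : Wsq f u x = Hs x := by
            unfold Wsq Wt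
            rw [hHs]
            refine Finset.sum_congr rfl fun i _ => Finset.sum_congr rfl fun j _ => ?_
            rw [nu_eq_zero u h0]; ring
          rw [hPx, zero_div, sub_zero, hW]
          have : 0 ≤ Hs x := Finset.sum_nonneg fun _ _ => Finset.sum_nonneg fun _ _ => sq_nonneg _
          have hn : (0 : ℝ) ≤ n := Nat.cast_nonneg n
          nlinarith
        · have hlin := M1_lin (fun i j => pd i (pd j u) x)
            (fun i j => pd_comm (hu.of_le two_le_infty) i j x) (fun i => nu u i x)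
            (sum_nu_sq u h0) (f (u x)) (h.eqn x hx)
          have hgs : gsq u x ≠ 0 := by rw [← gr_sq]; exact pow_ne_zero 2 h0
          have hgs0 : 0 < gsq u x := lt_of_le_of_ne (gsq_nonneg u x) (Ne.symm hgs)
          have hPν : ∑ i, (∑ j, pd i (pd j u) x * nu u j x) ^ 2 = P x / gsq u x := by
            rw [hP, Finset.sum_div]
            refine Finset.sum_congr rfl fun k _ => ?_
            have : ∑ i, pd i u x * pd k (pd i u) x =
                gr u x * ∑ j, pd k (pd j u) x * nu u j x := by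
              rw [Finset.mul_sum]
              refine Finset.sum_congr rfl fun j _ => ?_
              rw [← gr_mul_nu u j x]; ring
            rw [this, mul_pow, gr_sq]
            field_simp
          have hWeq : Wsq f u x = ∑ i, ∑ j, (pd i (pd j u) x + f (u x) * nu u i x * nu u j x) ^ 2 :=
            rfl
          rw [hWeq]
          refine hlin.trans ?_
          apply mul_le_mul_of_nonneg_left _ (by positivity)
          rw [hPν]
          have hP0 : 0 ≤ P x := Finset.sum_nonneg fun _ _ => sq_nonneg _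
          have : P x / qe u ε x ≤ P x / gsq u x := by
            apply div_le_div_of_nonneg_left hP0 hgs0
            unfold qe
            nlinarith [sq_nonneg ε]
          have hHx : Hs x = ∑ i, ∑ j, pd i (pd j u) x ^ 2 := rfl
          rw [← hHx]
          linarith
      · rw [hη.zero_of_notMem hx]; norm_num
    have h5 : ∫ x, Wsq f u x * η x ^ 2 ≤ ∫ x, (n + 2) * ((Hs x - P x / qe u ε x) * η x ^ 2) := by
      refine integral_mono ?_ ?_ hpt
      · exact integrable_Wsq_mul h hη2.continuous hη2.compact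
      · refine Integrable.const_mul ?_ _
        simp_rw [sub_mul]
        exact hI1.sub hI2
    rw [integral_const_mul] at h5
    refine h5.trans ?_
    have hn0 : (0 : ℝ) ≤ n + 2 := by positivity
    have := mul_le_mul_of_nonneg_left hcomb hn0
    linarith
  -- let ε → 0
  set C : ℝ := (n + 2) * ∫ x, (gsq η x - deriv f (u x) * η x ^ 2) with hC
  refine le_of_forall_pos_le_add fun δ hδ => ?_
  have hε : 0 < Real.sqrt (δ / (|C| + 1)) := Real.sqrt_pos.mpr (by positivity)
  refine (key _ hε).trans ?_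
  rw [Real.sq_sqrt (by positivity)]
  have h1 : δ / (|C| + 1) * C ≤ δ := by
    rw [div_mul_eq_mul_div, div_le_iff₀ (by positivity)]
    have := le_abs_self C
    nlinarith
  linarith

end Pool.Agent.H94.Stab
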