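import Pool.Agent.H62.Stab.M1

/-!
# M3: weak smallness of `f |∇u| ν ν ν` (MP_de3e90_an)
-/

set_option autoImplicit false

open MeasureTheory Set Filter Topology
open scoped ContDiff

namespace Pool.Agent.H94.Stab

namespace M3

variable {n : ℕ} {Ω : Set (E n)} {f F : ℝ → ℝ} {u : E n → ℝ}

/-! ### pointwise algebra -/

/-- one component of the gradient of `u_j u_l / q`, times `u_i` -/
theorem comp_bound {g ν1 ν2 ν3 νm q e S w Wj Wl c : ℝ} (hq : q = g ^ 2 + e)
    (he : 0 < e) (h1 : ν1 ^ 2 ≤ 1) (h2 : ν2 ^ 2 ≤ 1) (h3 : ν3 ^ 2 ≤ 1)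
    (hS : S ^ 2 ≤ g ^ 2 * w) (hw : 0 ≤ w) :
    ((g * ν1) * ((((Wj - c * νm * ν2) * (g * ν3) + (g * ν2) * (Wl - c * νm * ν3)) * q -
      (g * ν2) * (g * ν3) * (2 * (S - c * g * νm))) / q ^ 2)) ^ 2 ≤
      4 * (Wj ^ 2 + Wl ^ 2 + 4 * w + 4 * (c ^ 2 * (g ^ 2 * e / q ^ 2) ^ 2 * νm ^ 2)) := by
  have hq0 : 0 < q := by rw [hq]; positivity
  have hgq : g ^ 2 ≤ q := by rw [hq]; linarith
  have hgq1 : g ^ 2 / q ≤ 1 := (div_le_one hq0).mpr hgq
  have hgq0 : 0 ≤ g ^ 2 / q := by positivity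
  have n13 : ν1 ^ 2 * ν3 ^ 2 ≤ 1 := mul_le_one₀ h1 (sq_nonneg _) h3
  have n12 : ν1 ^ 2 * ν2 ^ 2 ≤ 1 := mul_le_one₀ h1 (sq_nonneg _) h2
  have n123 : ν1 ^ 2 * ν2 ^ 2 * ν3 ^ 2 ≤ 1 := mul_le_one₀ n12 (sq_nonneg _) h3
  have p2 : (g ^ 2 / q) ^ 2 ≤ 1 := pow_le_one₀ hgq0 hgq1
  have p4 : (g ^ 2 / q) ^ 4 ≤ 1 := pow_le_one₀ hgq0 hgq1
  set T1 : ℝ := g ^ 2 / q * (ν1 * ν3) * Wj with hT1
  set T2 : ℝ := g ^ 2 / q * (ν1 * ν2) * Wl with hT2
  set T3 : ℝ := -(2 * (g * (g ^ 2 / q ^ 2)) * (ν1 * ν2 * ν3) * S) with hT3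
  set T4 : ℝ := -(2 * c * (g ^ 2 * e / q ^ 2) * νm * (ν1 * ν2 * ν3)) with hT4
  have hsum : (g * ν1) * ((((Wj - c * νm * ν2) * (g * ν3) + (g * ν2) * (Wl - c * νm * ν3)) * q -
      (g * ν2) * (g * ν3) * (2 * (S - c * g * νm))) / q ^ 2) = T1 + T2 + T3 + T4 := by
    rw [hT1, hT2, hT3, hT4]
    field_simp
    rw [hq]
    ring
  rw [hsum]
  have b1 : T1 ^ 2 ≤ Wj ^ 2 := by
    have : T1 ^ 2 = (g ^ 2 / q) ^ 2 * (ν1 ^ 2 * ν3 ^ 2) * Wj ^ 2 := by rw [hT1]; ring
    rw [this]
    apply mul_le_of_le_one_left (sq_nonneg _)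
    exact mul_le_one₀ p2 (by positivity) n13
  have b2 : T2 ^ 2 ≤ Wl ^ 2 := by
    have : T2 ^ 2 = (g ^ 2 / q) ^ 2 * (ν1 ^ 2 * ν2 ^ 2) * Wl ^ 2 := by rw [hT2]; ring
    rw [this]
    apply mul_le_of_le_one_left (sq_nonneg _)
    exact mul_le_one₀ p2 (by positivity) n12
  have b3 : T3 ^ 2 ≤ 4 * w := by
    have e3 : T3 ^ 2 = 4 * ((ν1 ^ 2 * ν2 ^ 2 * ν3 ^ 2) * ((g * (g ^ 2 / q ^ 2)) ^ 2 * S ^ 2)) := by
      rw [hT3]; ring
    rw [e3]
    apply mul_le_mul_of_nonneg_left _ (by norm_num)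
    have e4 : (g * (g ^ 2 / q ^ 2)) ^ 2 * S ^ 2 ≤ w := by
      calc (g * (g ^ 2 / q ^ 2)) ^ 2 * S ^ 2 ≤ (g * (g ^ 2 / q ^ 2)) ^ 2 * (g ^ 2 * w) :=
            mul_le_mul_of_nonneg_left hS (sq_nonneg _)
        _ = (g ^ 2 / q) ^ 4 * w := by field_simp
        _ ≤ w := mul_le_of_le_one_left hw p4
    calc _ ≤ 1 * w := mul_le_mul n123 e4 (by positivity) (by norm_num)
      _ = w := one_mul w
  have b4 : T4 ^ 2 ≤ 4 * (c ^ 2 * (g ^ 2 * e / q ^ 2) ^ 2 * νm ^ 2) := by
    have e3 : T4 ^ 2 = (4 * (c ^ 2 * (g ^ 2 * e / q ^ 2) ^ 2 * νm ^ 2)) *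
      (ν1 ^ 2 * ν2 ^ 2 * ν3 ^ 2) := by
      rw [hT4]; ring
    rw [e3]
    exact mul_le_of_le_one_right (by positivity) n123
  have hsq : (T1 + T2 + T3 + T4) ^ 2 ≤ 4 * (T1 ^ 2 + T2 ^ 2 + T3 ^ 2 + T4 ^ 2) := by
    nlinarith [sq_nonneg (T1 - T2), sq_nonneg (T1 - T3), sq_nonneg (T1 - T4), sq_nonneg (T2 - T3),
      sq_nonneg (T2 - T4), sq_nonneg (T3 - T4)]
  linarith

/-- `θ = u_j u_l / q` -/
noncomputable def th (u : E n → ℝ) (ε : ℝ) (j l : Fin n) (x : E n) : ℝ :=
  pd j u x * pd l u x / qe u ε x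

theorem contDiff_th (hu : ContDiff ℝ ∞ u) {ε : ℝ} (hε : 0 < ε) (j l : Fin n) :
    ContDiff ℝ ∞ (th u ε j l) :=
  ((contDiff_pd_infty j hu).mul (contDiff_pd_infty l hu)).div (contDiff_qe hu ε)
    fun x => (qe_pos u hε x).ne'

/-- the pointwise bound for `u_i² |∇θ|²`. -/
theorem th_bound (hu : ContDiff ℝ ∞ u) (f : ℝ → ℝ) {ε : ℝ} (hε : 0 < ε) (i j l : Fin n) (x : E n) :
    (pd i u x) ^ 2 * gsq (th u ε j l) x ≤
      24 * Wsq f u x + 16 * (f (u x) ^ 2 * (gsq u x * ε ^ 2 / qe u ε x ^ 2) ^ 2) := by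
  have hd : ∀ k, DifferentiableAt ℝ (pd k u) x := fun k =>
    (contDiff_pd_infty k hu).differentiable (by simp) x
  have hqd : DifferentiableAt ℝ (qe u ε) x := (contDiff_qe hu ε).differentiable (by simp) x
  have hq0 := qe_pos u hε x
  set w : Fin n → ℝ := fun m => ∑ r, Wt f u m r x ^ 2 with hw
  set r : ℝ := gsq u x * ε ^ 2 / qe u ε x ^ 2 with hr
  have hm : ∀ m, (pd i u x) ^ 2 * (pd m (th u ε j l) x) ^ 2 ≤
      4 * (Wt f u m j x ^ 2 + Wt f u m l x ^ 2 + 4 * w m +
        4 * (f (u x) ^ 2 * r ^ 2 * nu u m x ^ 2)) := by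
    intro m
    have e1 : pd m (th u ε j l) x = ((pd m (pd j u) x * pd l u x + pd j u x * pd m (pd l u) x) *
        qe u ε x - pd j u x * pd l u x * (2 * ∑ k, pd k u x * pd m (pd k u) x)) /
          qe u ε x ^ 2 := by
      unfold th
      rw [pd_div m (g := fun x => pd j u x * pd l u x) ((hd j).mul (hd l)) hqd hq0.ne', pd_qe hu]
      congr 2
      rw [pd_mul m (hd j) (hd l)]
    have e2 : ∀ k, pd m (pd k u) x = Wt f u m k x - f (u x) * nu u m x * nu u k x := by
      intro k; unfold Wt; ring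
    have e3 : ∑ k, pd k u x * pd m (pd k u) x =
        (∑ k, pd k u x * Wt f u m k x) - f (u x) * gr u x * nu u m x := by
      simp_rw [e2]
      rw [← sum_nu_mul_pd u x, Finset.mul_sum, Finset.sum_mul, ← Finset.sum_sub_distrib]
      refine Finset.sum_congr rfl fun k _ => ?_
      ring
    rw [← mul_pow, e1, e3, e2 j, e2 l, ← gr_mul_nu u i x, ← gr_mul_nu u j x, ← gr_mul_nu u l x]
    have hνsq : ∀ k, nu u k x ^ 2 ≤ 1 := fun k => by
      rw [← sq_abs]; exact pow_le_one₀ (abs_nonneg _) (abs_nu_le u k x)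
    have := comp_bound (g := gr u x) (ν1 := nu u i x) (ν2 := nu u j x) (ν3 := nu u l x)
      (νm := nu u m x) (q := qe u ε x) (e := ε ^ 2) (S := ∑ k, pd k u x * Wt f u m k x) (w := w m)
      (Wj := Wt f u m j x) (Wl := Wt f u m l x) (c := f (u x))
      (by rw [gr_sq]; rfl) (by positivity) (hνsq i) (hνsq j) (hνsq l) (by
        rw [gr_sq]
        exact Finset.sum_mul_sq_le_sq_mul_sq _ _ _)
      (Finset.sum_nonneg fun _ _ => sq_nonneg _)
    rw [gr_sq] at this
    exact this
  have hsum : (pd i u x) ^ 2 * gsq (th u ε j l) x ≤ ∑ m, 4 * (Wt f u m j x ^ 2 +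
      Wt f u m l x ^ 2 + 4 * w m + 4 * (f (u x) ^ 2 * r ^ 2 * nu u m x ^ 2)) := by
    unfold gsq
    rw [Finset.mul_sum]
    exact Finset.sum_le_sum fun m _ => hm m
  refine hsum.trans ?_
  rw [← Finset.mul_sum, Finset.sum_add_distrib, Finset.sum_add_distrib, Finset.sum_add_distrib,
    ← Finset.mul_sum, ← Finset.mul_sum, ← Finset.mul_sum]
  have hc : ∀ j, ∑ m, Wt f u m j x ^ 2 ≤ Wsq f u x := fun j => by
    unfold Wsq
    refine Finset.sum_le_sum fun m _ => ?_
    exact Finset.single_le_sum (f := fun j => Wt f u m j x ^ 2)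
      (fun _ _ => sq_nonneg _) (Finset.mem_univ j)
  have hws : ∑ m, w m = Wsq f u x := rfl
  have hν := sum_nu_sq_le u x
  have h1 := hc j
  have h2 := hc l
  have h3 : f (u x) ^ 2 * r ^ 2 * ∑ m, nu u m x ^ 2 ≤ f (u x) ^ 2 * r ^ 2 :=
    mul_le_of_le_one_right (by positivity) hν
  rw [hws]
  linarith

/-! ### the bilinear form -/

/-- the bilinear form of the second variation -/
noncomputable def Qb (f : ℝ → ℝ) (u ξ b : E n → ℝ) : ℝ :=
  ∫ x, (∑ k, pd k ξ x * pd k b x - deriv f (u x) * (ξ x * b x))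

theorem integrable_Qf (h : Stable Ω f F u) {ξ : E n → ℝ} (hξ : Test Ω ξ) :
    Integrable (fun x => gsq ξ x - deriv f (u x) * ξ x ^ 2) :=
  hξ.gsq'.integrable.sub (hξ.sq.integrable_mul (h.deriv_f_cont.comp h.continuous))

theorem integrable_Qb (h : Stable Ω f F u) {ξ b : E n → ℝ} (hξ : Test Ω ξ) (hb : Test Ω b) :
    Integrable (fun x => ∑ k, pd k ξ x * pd k b x - deriv f (u x) * (ξ x * b x)) := by
  refine Integrable.sub (integrable_finsetSum _ fun k _ => ?_) ?_
  · exact (hb.pd k).integrable_mul (hξ.pd k).continuous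
  · have := hb.integrable_mul ((h.deriv_f_cont.comp h.continuous).mul hξ.continuous)
    refine this.congr (Filter.Eventually.of_forall fun x => ?_)
    simp only [Function.comp, Pi.mul_apply]
    ring

/-- Cauchy–Schwarz. -/
theorem Q_cs (h : Stable Ω f F u) {ξ b : E n → ℝ} (hξ : Test Ω ξ) (hb : Test Ω b) :
    Qb f u ξ b ^ 2 ≤ Qf f u ξ * Qf f u b := by
  have hquad : ∀ t : ℝ, 0 ≤ Qf f u b * (t * t) + 2 * Qb f u ξ b * t + Qf f u ξ := by
    intro t
    have h1 := h.stab _ (hξ.add (hb.const_mul t))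
    have h2 : Qf f u (fun x => ξ x + t * b x) =
        Qf f u b * (t * t) + 2 * Qb f u ξ b * t + Qf f u ξ := by
      have e1 : ∀ x, gsq (fun x => ξ x + t * b x) x - deriv f (u x) * (ξ x + t * b x) ^ 2 =
          (t * t) * (gsq b x - deriv f (u x) * b x ^ 2) +
          (2 * t) * (∑ k, pd k ξ x * pd k b x - deriv f (u x) * (ξ x * b x)) +
          (gsq ξ x - deriv f (u x) * ξ x ^ 2) := by
        intro x
        have hξd : DifferentiableAt ℝ ξ x := hξ.smooth.differentiable (by simp) x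
        have hbd : DifferentiableAt ℝ b x := hb.smooth.differentiable (by simp) x
        have e2 : ∀ k, pd k (fun x => ξ x + t * b x) x = pd k ξ x + t * pd k b x := by
          intro k
          rw [pd_add k hξd (hbd.const_mul t), pd_const_mul k t hbd]
        have e3 : gsq (fun x => ξ x + t * b x) x =
            gsq ξ x + 2 * t * (∑ k, pd k ξ x * pd k b x) + t * t * gsq b x := by
          unfold gsq
          simp_rw [e2]
          rw [Finset.mul_sum, Finset.mul_sum, ← Finset.sum_add_distrib, ← Finset.sum_add_distrib]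
          refine Finset.sum_congr rfl fun k _ => ?_
          ring
        rw [e3]
        ring
      unfold Qf Qb
      simp_rw [e1]
      rw [integral_add, integral_add, integral_const_mul, integral_const_mul]
      · ring
      · exact (integrable_Qf h hb).const_mul _
      · exact (integrable_Qb h hξ hb).const_mul _
      · exact ((integrable_Qf h hb).const_mul _).add ((integrable_Qb h hξ hb).const_mul _)
      · exact integrable_Qf h hξ
    rwa [h2] at h1
  have := discrim_le_zero hquad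
  unfold discrim at this
  nlinarith

/-- `Q(u_i h) = ∫ u_i² |∇h|²`. -/
theorem Qf_pd_mul (h : Stable Ω f F u) (i : Fin n) {φ : E n → ℝ} (hφ : Test Ω φ) :
    Qf f u (fun x => pd i u x * φ x) = ∫ x, (pd i u x) ^ 2 * gsq φ x := by
  have hp := h.pd_smooth i
  have hT : Test Ω (fun x => pd i u x * φ x ^ 2) := hφ.sq.mul_left hp
  have e1 : ∀ x, gsq (fun x => pd i u x * φ x) x - deriv f (u x) * (pd i u x * φ x) ^ 2 =
      (pd i u x) ^ 2 * gsq φ x + (∑ k, pd k (pd i u) x * pd k (fun x => pd i u x * φ x ^ 2) x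
        - deriv f (u x) * pd i u x * (pd i u x * φ x ^ 2)) := by
    intro x
    have hpd : DifferentiableAt ℝ (pd i u) x := hp.differentiable (by simp) x
    have hφd : DifferentiableAt ℝ φ x := hφ.smooth.differentiable (by simp) x
    have e2 : ∀ k, pd k (fun x => pd i u x * φ x) x = pd k (pd i u) x * φ x +
        pd i u x * pd k φ x := fun k => pd_mul k hpd hφd
    have e3 : ∀ k, pd k (fun x => pd i u x * φ x ^ 2) x = pd k (pd i u) x * φ x ^ 2 +
        pd i u x * (2 * φ x * pd k φ x) := fun k => by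
      rw [pd_mul k (h := fun x => φ x ^ 2) hpd (hφd.pow 2), pd_sq k hφd]
    have e4 : gsq (fun x => pd i u x * φ x) x = (pd i u x) ^ 2 * gsq φ x +
        ∑ k, pd k (pd i u) x * pd k (fun x => pd i u x * φ x ^ 2) x := by
      unfold gsq
      rw [Finset.mul_sum, ← Finset.sum_add_distrib]
      refine Finset.sum_congr rfl fun k _ => ?_
      rw [e2, e3]
      ring
    rw [e4]
    ring
  unfold Qf
  simp_rw [e1]
  have hI1 : Integrable (fun x => (pd i u x) ^ 2 * gsq φ x) :=
    hφ.gsq'.integrable_mul (hp.continuous.pow 2)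
  have hI2 : ∀ k, Integrable (fun x => pd k (pd i u) x * pd k (fun x => pd i u x * φ x ^ 2) x) :=
    fun k => (hT.pd k).integrable_mul (contDiff_pd_infty k hp).continuous
  have hI3 : Integrable (fun x => deriv f (u x) * pd i u x * (pd i u x * φ x ^ 2)) :=
    hT.integrable_mul ((h.deriv_f_cont.comp h.continuous).mul hp.continuous)
  have hI23 : Integrable (fun x => ∑ k, pd k (pd i u) x * pd k (fun x => pd i u x * φ x ^ 2) x -
      deriv f (u x) * pd i u x * (pd i u x * φ x ^ 2)) :=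
    (integrable_finsetSum _ fun k _ => hI2 k).sub hI3
  rw [integral_add hI1 hI23]
  rw [integral_sub (integrable_finsetSum _ fun k _ => hI2 k) hI3, integral_finsetSum _
    fun k _ => hI2 k]
  have e5 : ∀ k, ∫ x, pd k (pd i u) x * pd k (fun x => pd i u x * φ x ^ 2) x =
      - ∫ x, pd k (pd k (pd i u)) x * (pd i u x * φ x ^ 2) := fun k =>
    integral_mul_pd' k ((contDiff_pd_infty k hp).of_le (by exact_mod_cast le_top)) hT.c1 hT.compact
  simp_rw [e5]
  have hI4 : ∀ k, Integrable (fun x => pd k (pd k (pd i u)) x * (pd i u x * φ x ^ 2)) := fun k =>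
    hT.integrable_mul (contDiff_pd_infty k (contDiff_pd_infty k hp)).continuous
  rw [Finset.sum_neg_distrib, ← integral_finsetSum _ fun k _ => hI4 k]
  have e6 : ∫ x, ∑ k, pd k (pd k (pd i u)) x * (pd i u x * φ x ^ 2) =
      ∫ x, - (deriv f (u x) * pd i u x * (pd i u x * φ x ^ 2)) := by
    congr 1
    ext x
    rw [← Finset.sum_mul]
    by_cases hx : x ∈ Ω
    · rw [h.eqn_pd hx i]; ring
    · rw [hφ.zero_of_notMem hx]; ring
  rw [e6, integral_neg]
  ring

/-- `Δ(x·∇u) = -2f - f'(u) x·∇u`. -/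
theorem lap_cc (h : Stable Ω f F u) {x : E n} (hx : x ∈ Ω) :
    ∑ k, pd k (pd k (cc u)) x = -2 * f (u x) - deriv f (u x) * cc u x := by
  have hp : ∀ i, ContDiff ℝ ∞ (pd i u) := fun i => h.pd_smooth i
  have hpp : ∀ k i, ContDiff ℝ ∞ (pd k (pd i u)) := fun k i => contDiff_pd_infty k (hp i)
  have hco : ∀ i, ContDiff ℝ ∞ (fun x : E n => x i) := fun i => coord_contDiff i
  have e1 : ∀ k, pd k (cc u) = fun y => pd k u y + ∑ i, y i * pd k (pd i u) y := by
    intro k
    ext y
    unfold cc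
    rw [pd_sum k (fun i _ => ((hco i).mul (hp i)).differentiable (by simp) y)]
    have : ∀ i, pd k (fun y : E n => y i * pd i u y) y =
        (if k = i then 1 else 0) * pd i u y + y i * pd k (pd i u) y := by
      intro i
      rw [pd_mul k ((hco i).differentiable (by simp) y) ((hp i).differentiable (by simp) y),
        pd_coord]
    simp_rw [this, Finset.sum_add_distrib]
    simp
  have e2 : ∀ k, pd k (pd k (cc u)) x = 2 * pd k (pd k u) x + ∑ i, x i * pd k (pd k (pd i u)) x := by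
    intro k
    rw [e1 k, pd_add k ((hp k).differentiable (by simp) x)
      ((ContDiff.sum fun i _ => (hco i).mul (hpp k i)).differentiable (by simp) x),
      pd_sum k (fun i _ => ((hco i).mul (hpp k i)).differentiable (by simp) x)]
    have : ∀ i, pd k (fun y : E n => y i * pd k (pd i u) y) x =
        (if k = i then 1 else 0) * pd k (pd i u) x + x i * pd k (pd k (pd i u)) x := by
      intro i
      rw [pd_mul k ((hco i).differentiable (by simp) x) ((hpp k i).differentiable (by simp) x),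
        pd_coord]
    simp_rw [this, Finset.sum_add_distrib]
    simp
    ring
  simp_rw [e2, Finset.sum_add_distrib, ← Finset.mul_sum]
  rw [h.eqn x hx, Finset.sum_comm]
  have e3 : ∀ i, ∑ k, x i * pd k (pd k (pd i u)) x = - (deriv f (u x) * (x i * pd i u x)) := by
    intro i
    rw [← Finset.mul_sum, h.eqn_pd hx i]
    ring
  simp_rw [e3, Finset.sum_neg_distrib, ← Finset.mul_sum]
  unfold cc
  ring

/-- `Q(ξ,b) = 2∫ f(u) b` if `ξ = x·∇u` near the support of `b = v a`. -/
theorem Qb_eq (h : Stable Ω f F u) {ξ a v : E n → ℝ} (hξ : Test Ω ξ) (ha : Test Ω a)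
    (hv : ContDiff ℝ ∞ v) (h1 : ∀ x ∈ tsupport a, ∀ᶠ y in 𝓝 x, ξ y = cc u y) :
    Qb f u ξ (fun x => v x * a x) = 2 * ∫ x, f (u x) * (v x * a x) := by
  have hb : Test Ω (fun x => v x * a x) := ha.mul_left hv
  set b : E n → ℝ := fun x => v x * a x with hbdef
  unfold Qb
  have hI1 : ∀ k, Integrable (fun x => pd k ξ x * pd k b x) := fun k =>
    (hb.pd k).integrable_mul (hξ.pd k).continuous
  have hI2 : Integrable (fun x => deriv f (u x) * (ξ x * b x)) := by
    have := hb.integrable_mul ((h.deriv_f_cont.comp h.continuous).mul hξ.continuous)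
    refine this.congr (Filter.Eventually.of_forall fun x => ?_)
    simp only [Function.comp, Pi.mul_apply]
    ring
  have hI3 : ∀ k, Integrable (fun x => pd k (pd k ξ) x * b x) := fun k =>
    hb.integrable_mul ((hξ.pd k).pd k).continuous
  rw [integral_sub (integrable_finsetSum _ fun k _ => hI1 k) hI2,
    integral_finsetSum _ fun k _ => hI1 k]
  have e5 : ∀ k, ∫ x, pd k ξ x * pd k b x = - ∫ x, pd k (pd k ξ) x * b x := fun k =>
    integral_mul_pd' k (hξ.pd k).c1 hb.c1 hb.compact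
  simp_rw [e5]
  have hI3s : Integrable (fun x => - ∑ k, pd k (pd k ξ) x * b x) :=
    (integrable_finsetSum _ fun k _ => hI3 k).neg
  rw [Finset.sum_neg_distrib, ← integral_finsetSum _ fun k _ => hI3 k, ← integral_neg,
    ← integral_sub hI3s hI2, ← integral_const_mul]
  congr 1
  ext x
  by_cases hx : x ∈ tsupport a
  · have hxΩ : x ∈ Ω := ha.sub hx
    have hev := h1 x hx
    have hξx : ξ x = cc u x := hev.self_of_nhds
    have e6 : ∀ k, pd k (pd k ξ) x = pd k (pd k (cc u)) x := by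
      intro k
      apply pd_congr_nhds
      have := eventually_eventually_nhds.mpr hev
      filter_upwards [this] with y hy
      exact pd_congr_nhds k hy
    rw [← Finset.sum_mul]
    simp_rw [e6]
    rw [lap_cc h hxΩ, hξx]
    ring
  · have ha0 : a x = 0 := image_eq_zero_of_notMem_tsupport hx
    have hb0 : b x = 0 := by
      rw [hbdef]; simp only
      rw [ha0, mul_zero]
    simp only [hb0, ha0]
    simp

/-- upper bound for `Q(u_i θ a)` -/
theorem Qf_b_le (h : Stable Ω f F u) (i j l : Fin n) {ε : ℝ} (hε : 0 < ε) {a : E n → ℝ}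
    (ha : Test Ω a) :
    Qf f u (fun x => pd i u x * (th u ε j l x * a x)) ≤
      (48 * n + 98) * (∫ x, gsq u x * gsq a x) +
        32 * ∫ x, f (u x) ^ 2 * (gsq u x * ε ^ 2 / qe u ε x ^ 2) ^ 2 * a x ^ 2 := by
  have hu := h.smooth
  have hθ := contDiff_th hu hε j l
  have hφ : Test Ω (fun x => th u ε j l x * a x) := ha.mul_left hθ
  rw [Qf_pd_mul h i hφ]
  have hfc : Continuous fun x => f (u x) := h.f_C1.continuous.comp h.continuous
  have hqc : Continuous (qe u ε) := (contDiff_qe hu ε).continuous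
  have hgc : Continuous (gsq u) := (contDiff_gsq hu).continuous
  have hrc : Continuous fun x => f (u x) ^ 2 * (gsq u x * ε ^ 2 / qe u ε x ^ 2) ^ 2 :=
    (hfc.pow 2).mul (((hgc.mul continuous_const).div (hqc.pow 2)
      fun x => (pow_pos (qe_pos u hε x) 2).ne').pow 2)
  have hpt : ∀ x, (pd i u x) ^ 2 * gsq (fun x => th u ε j l x * a x) x ≤
      2 * (gsq u x * gsq a x) + 48 * (Wsq f u x * a x ^ 2) +
        32 * (f (u x) ^ 2 * (gsq u x * ε ^ 2 / qe u ε x ^ 2) ^ 2 * a x ^ 2) := by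
    intro x
    have hθd : DifferentiableAt ℝ (th u ε j l) x := hθ.differentiable (by simp) x
    have had : DifferentiableAt ℝ a x := ha.smooth.differentiable (by simp) x
    have hq0 := qe_pos u hε x
    have e1 : gsq (fun x => th u ε j l x * a x) x ≤
        2 * (a x ^ 2 * gsq (th u ε j l) x) + 2 * (th u ε j l x ^ 2 * gsq a x) := by
      unfold gsq
      rw [Finset.mul_sum, Finset.mul_sum, Finset.mul_sum, Finset.mul_sum,
        ← Finset.sum_add_distrib]
      refine Finset.sum_le_sum fun k _ => ?_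
      rw [pd_mul k hθd had]
      nlinarith [sq_nonneg (pd k (th u ε j l) x * a x - th u ε j l x * pd k a x)]
    have hb := th_bound hu f hε i j l x
    have hth : th u ε j l x ^ 2 ≤ 1 := by
      unfold th
      rw [div_pow, div_le_one (by positivity)]
      have h1 := pd_sq_le_gsq u j x
      have h2 := pd_sq_le_gsq u l x
      have h3 : gsq u x ≤ qe u ε x := by unfold qe; nlinarith [sq_nonneg ε]
      have h4 := gsq_nonneg u x
      calc (pd j u x * pd l u x) ^ 2 = pd j u x ^ 2 * pd l u x ^ 2 := by ring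
        _ ≤ gsq u x * gsq u x := mul_le_mul h1 h2 (sq_nonneg _) h4
        _ ≤ qe u ε x * qe u ε x := mul_le_mul h3 h3 h4 hq0.le
        _ = qe u ε x ^ 2 := by ring
    have hga := gsq_nonneg a x
    have hpi := pd_sq_le_gsq u i x
    have hgu := gsq_nonneg u x
    have t1 : (pd i u x) ^ 2 * (2 * (th u ε j l x ^ 2 * gsq a x)) ≤ 2 * (gsq u x * gsq a x) := by
      have : (pd i u x) ^ 2 * (th u ε j l x ^ 2 * gsq a x) ≤ gsq u x * (1 * gsq a x) :=
        mul_le_mul hpi (mul_le_mul_of_nonneg_right hth hga) (by positivity) hgu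
      linarith
    have t2 : (pd i u x) ^ 2 * (2 * (a x ^ 2 * gsq (th u ε j l) x)) ≤
        48 * (Wsq f u x * a x ^ 2) +
        32 * (f (u x) ^ 2 * (gsq u x * ε ^ 2 / qe u ε x ^ 2) ^ 2 * a x ^ 2) := by
      have := mul_le_mul_of_nonneg_right hb (sq_nonneg (a x))
      nlinarith
    have t3 := mul_le_mul_of_nonneg_left e1 (sq_nonneg (pd i u x))
    nlinarith
  have hI1 : Integrable (fun x => gsq u x * gsq a x) := ha.gsq'.integrable_mul hgc
  have hI2 : Integrable (fun x => Wsq f u x * a x ^ 2) :=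
    integrable_Wsq_mul h ha.sq.continuous ha.sq.compact
  have hI3 : Integrable (fun x => f (u x) ^ 2 * (gsq u x * ε ^ 2 / qe u ε x ^ 2) ^ 2 * a x ^ 2) :=
    ha.sq.integrable_mul hrc
  have hI12 : Integrable (fun x => 2 * (gsq u x * gsq a x) + 48 * (Wsq f u x * a x ^ 2)) :=
    (hI1.const_mul 2).add (hI2.const_mul 48)
  have hle := integral_mono (hφ.gsq'.integrable_mul ((h.pd_smooth i).continuous.pow 2))
    (hI12.add (hI3.const_mul 32)) hpt
  have e2 : ∫ x, 2 * (gsq u x * gsq a x) + 48 * (Wsq f u x * a x ^ 2) +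
        32 * (f (u x) ^ 2 * (gsq u x * ε ^ 2 / qe u ε x ^ 2) ^ 2 * a x ^ 2) =
      2 * (∫ x, gsq u x * gsq a x) + 48 * (∫ x, Wsq f u x * a x ^ 2) +
      32 * ∫ x, f (u x) ^ 2 * (gsq u x * ε ^ 2 / qe u ε x ^ 2) ^ 2 * a x ^ 2 := by
    rw [integral_add hI12 (hI3.const_mul 32), integral_add (hI1.const_mul 2) (hI2.const_mul 48),
      integral_const_mul, integral_const_mul, integral_const_mul]
  have hsz := sz h ha
  refine hle.trans ?_
  refine e2.le.trans ?_
  linarith

end M3

open M3 in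
/-- M3: weak smallness of `f |∇u| ν ν ν`. -/
theorem cubic {n : ℕ} {Ω : Set (E n)} {f F : ℝ → ℝ} {u : E n → ℝ} (hn : 1 ≤ n)
    (h : Stable Ω f F u) (i j l : Fin n) {ξ a : E n → ℝ}
    (hξ : Test Ω ξ) (ha : Test Ω a) (h1 : ∀ x ∈ tsupport a, ∀ᶠ y in 𝓝 x, ξ y = cc u y) :
    (∫ x, f (u x) * gr u x * nu u i x * nu u j x * nu u l x * a x) ^ 2 ≤
      100 * n * Qf f u ξ * ∫ x, gsq u x * gsq a x := by
  have hu := h.smooth
  set G : ℝ := ∫ x, gsq u x * gsq a x with hG
  have hG0 : 0 ≤ G := integral_nonneg fun x => mul_nonneg (gsq_nonneg u x) (gsq_nonneg a x)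
  have hQ0 : 0 ≤ Qf f u ξ := h.stab ξ hξ
  have hfc : Continuous fun x => f (u x) := h.f_C1.continuous.comp h.continuous
  have hgc : Continuous (gsq u) := (contDiff_gsq hu).continuous
  have hgrc : Continuous (gr u) := continuous_gr (hu.of_le (by exact_mod_cast le_top))
  set ε : ℕ → ℝ := fun k => 1 / ((k : ℝ) + 1) with hεdef
  have hε : ∀ k, 0 < ε k := fun k => by rw [hεdef]; positivity
  have hε0 : Tendsto ε atTop (𝓝 0) := tendsto_one_div_add_atTop_nhds_zero_nat
  set A : ℕ → ℝ := fun k => ∫ x, f (u x) * (pd i u x * (th u (ε k) j l x * a x)) with hA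
  set R : ℕ → ℝ := fun k =>
    ∫ x, f (u x) ^ 2 * (gsq u x * ε k ^ 2 / qe u (ε k) x ^ 2) ^ 2 * a x ^ 2 with hR
  have hineq : ∀ k, (2 * A k) ^ 2 ≤ Qf f u ξ * ((48 * n + 98) * G + 32 * R k) := by
    intro k
    have hθ := contDiff_th hu (hε k) j l
    have hv : ContDiff ℝ ∞ (fun x => pd i u x * th u (ε k) j l x) := (h.pd_smooth i).mul hθ
    have e1 : (fun x => pd i u x * (th u (ε k) j l x * a x)) =
        fun x => pd i u x * th u (ε k) j l x * a x := by ext x; ring
    have hb : Test Ω (fun x => pd i u x * (th u (ε k) j l x * a x)) := by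
      rw [e1]; exact ha.mul_left hv
    have h2 := Q_cs h hξ hb
    have h3 := Qf_b_le h i j l (hε k) ha
    have h4 : Qb f u ξ (fun x => pd i u x * (th u (ε k) j l x * a x)) = 2 * A k := by
      rw [e1, Qb_eq h hξ ha hv h1, hA]
      simp only
      congr 2
      ext x
      ring
    rw [h4] at h2
    exact h2.trans (mul_le_mul_of_nonneg_left h3 hQ0)
  have hlimA : Tendsto A atTop
      (𝓝 (∫ x, f (u x) * gr u x * nu u i x * nu u j x * nu u l x * a x)) := by
    refine tendsto_integral_of_dominated_convergence (fun x => |f (u x)| * gr u x * |a x|) ?_ ?_ ?_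
      ?_
    · intro k
      exact (hfc.mul ((h.pd_smooth i).continuous.mul
        ((contDiff_th hu (hε k) j l).continuous.mul ha.continuous))).aestronglyMeasurable
    · exact ((hfc.abs.mul hgrc).mul ha.continuous.abs).integrable_of_hasCompactSupport
        ha.compact.norm.mul_left
    · intro k
      refine Filter.Eventually.of_forall fun x => ?_
      have hq0 := qe_pos u (hε k) x
      rw [Real.norm_eq_abs, abs_mul, abs_mul, abs_mul, mul_assoc]
      apply mul_le_mul_of_nonneg_left _ (abs_nonneg _)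
      apply mul_le_mul (abs_pd_le_gr u i x) _ (by positivity) (gr_nonneg u x)
      apply mul_le_of_le_one_left (abs_nonneg _)
      unfold th
      rw [abs_div, abs_mul, abs_of_pos hq0, div_le_one hq0]
      have h2 := mul_le_mul (abs_pd_le_gr u j x) (abs_pd_le_gr u l x) (abs_nonneg _)
        (gr_nonneg u x)
      rw [gr_mul_gr] at h2
      unfold qe
      nlinarith [sq_nonneg (ε k)]
    · refine Filter.Eventually.of_forall fun x => ?_
      by_cases h0 : gr u x = 0
      · have hz := (gr_eq_zero_iff u x).1 h0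
        simp only [h0, hz i]
        simp
      · have hgs : gsq u x ≠ 0 := by rw [← gr_sq]; exact pow_ne_zero 2 h0
        have hlim : Tendsto (fun k => f (u x) * (pd i u x * (pd j u x * pd l u x /
            (gsq u x + ε k ^ 2) * a x))) atTop
            (𝓝 (f (u x) * (pd i u x * (pd j u x * pd l u x / (gsq u x + 0 ^ 2) * a x)))) := by
          refine Tendsto.const_mul _ (Tendsto.const_mul _ (Tendsto.mul_const _ ?_))
          refine Tendsto.div tendsto_const_nhds (tendsto_const_nhds.add (hε0.pow 2)) ?_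
          simpa using hgs
        have e2 : f (u x) * gr u x * nu u i x * nu u j x * nu u l x * a x =
            f (u x) * (pd i u x * (pd j u x * pd l u x / (gsq u x + 0 ^ 2) * a x)) := by
          rw [← gr_mul_nu u i x, ← gr_mul_nu u j x, ← gr_mul_nu u l x, ← gr_sq]
          field_simp
          ring
        rw [e2]
        exact hlim
  have hlimR : Tendsto R atTop (𝓝 0) := by
    have : Tendsto R atTop (𝓝 (∫ _ : E n, (0 : ℝ))) := by
      refine tendsto_integral_of_dominated_convergence (fun x => f (u x) ^ 2 * a x ^ 2) ?_ ?_ ?_ ?_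
      · intro k
        have hqc : Continuous (qe u (ε k)) := (contDiff_qe hu (ε k)).continuous
        have hrc : Continuous fun x => f (u x) ^ 2 * (gsq u x * ε k ^ 2 / qe u (ε k) x ^ 2) ^ 2 :=
          (hfc.pow 2).mul (((hgc.mul continuous_const).div (hqc.pow 2)
            fun x => (pow_pos (qe_pos u (hε k) x) 2).ne').pow 2)
        exact (hrc.mul (ha.continuous.pow 2)).aestronglyMeasurable
      · exact ha.sq.integrable_mul (hfc.pow 2)
      · intro k
        refine Filter.Eventually.of_forall fun x => ?_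
        have hq0 := qe_pos u (hε k) x
        have hg0 := gsq_nonneg u x
        have hr0 : 0 ≤ gsq u x * ε k ^ 2 / qe u (ε k) x ^ 2 := by positivity
        have hr1 : gsq u x * ε k ^ 2 / qe u (ε k) x ^ 2 ≤ 1 := by
          rw [div_le_one (by positivity)]
          unfold qe
          nlinarith [sq_nonneg (ε k), mul_nonneg hg0 (sq_nonneg (ε k))]
        rw [Real.norm_eq_abs, abs_of_nonneg (by positivity)]
        apply mul_le_mul_of_nonneg_right _ (sq_nonneg _)
        exact mul_le_of_le_one_right (sq_nonneg _) (pow_le_one₀ hr0 hr1)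
      · refine Filter.Eventually.of_forall fun x => ?_
        by_cases h0 : gsq u x = 0
        · simp only [h0]
          simp
        · have hlim : Tendsto (fun k => f (u x) ^ 2 * (gsq u x * ε k ^ 2 /
              (gsq u x + ε k ^ 2) ^ 2) ^ 2 * a x ^ 2) atTop
              (𝓝 (f (u x) ^ 2 * (gsq u x * 0 ^ 2 / (gsq u x + 0 ^ 2) ^ 2) ^ 2 * a x ^ 2)) := by
            refine Tendsto.mul_const _ (Tendsto.const_mul _ (Tendsto.pow ?_ 2))
            refine Tendsto.div (Tendsto.const_mul _ (hε0.pow 2))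
              ((tendsto_const_nhds.add (hε0.pow 2)).pow 2) ?_
            simpa using h0
          have e2 : f (u x) ^ 2 * (gsq u x * 0 ^ 2 / (gsq u x + 0 ^ 2) ^ 2) ^ 2 * a x ^ 2 = 0 := by
            simp
          rw [e2] at hlim
          exact hlim
    simpa using this
  have hfin : (2 * (∫ x, f (u x) * gr u x * nu u i x * nu u j x * nu u l x * a x)) ^ 2 ≤
      Qf f u ξ * ((48 * n + 98) * G + 32 * 0) :=
    le_of_tendsto_of_tendsto' ((hlimA.const_mul 2).pow 2)
      ((((hlimR.const_mul 32).const_add ((48 * n + 98) * G))).const_mul (Qf f u ξ)) hineq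
  have hn' : (1 : ℝ) ≤ n := by exact_mod_cast hn
  have hQG : 0 ≤ Qf f u ξ * G := mul_nonneg hQ0 hG0
  nlinarith

end Pool.Agent.H94.Stab
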